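import Mathlib

set_option autoImplicit false

namespace Pool.Agent.Results.MP_35e3b8_an.Counterexample

open Filter Topology Set
open scoped NNReal

/-- the action of `g` on functions vanishing at the base point `o` -/
def act {M G : Type} [Group G] [MulAction G M] (o : M) (g : G) (f : M → ℝ) : M → ℝ :=
  fun x => f (g⁻¹ • x) - f (g⁻¹ • o)

@[ext] structure M where
  v : ℝ

noncomputable def dd (a b : ℝ) : ℝ := if a = b then 0 else ⌈|a - b|⌉ + 20

lemma dd_ge (a b : ℝ) : |a - b| ≤ dd a b := by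
  unfold dd; split_ifs with h
  · simp [h]
  · linarith [Int.le_ceil |a - b|]

lemma dd_le (a b : ℝ) : dd a b ≤ |a - b| + 21 := by
  unfold dd; split_ifs with h
  · positivity
  · linarith [Int.ceil_lt_add_one |a - b|]

lemma dd_big {a b : ℝ} (h : a ≠ b) : 20 ≤ dd a b := by
  unfold dd; rw [if_neg h]; linarith [Int.le_ceil |a - b|, abs_nonneg (a - b)]

lemma dd_tri (a b c : ℝ) : dd a c ≤ dd a b + dd b c := by
  by_cases h1 : a = b
  · subst h1; simp [dd]
  by_cases h2 : b = c
  · subst h2; simp [dd]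
  by_cases h3 : a = c
  · subst h3; linarith [dd_big h1, dd_big h2, show dd a a = 0 by simp [dd]]
  have := dd_le a c
  have := abs_sub_le a b c
  unfold dd at *
  rw [if_neg h1, if_neg h2]
  linarith [Int.le_ceil |a - b|, Int.le_ceil |b - c|]

noncomputable instance : MetricSpace M where
  dist x y := dd x.v y.v
  dist_self x := by simp [dd]
  dist_comm x y := by
    show dd _ _ = dd _ _
    unfold dd; rw [abs_sub_comm]; simp only [eq_comm]
  dist_triangle x y z := dd_tri _ _ _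
  eq_of_dist_eq_zero {x y} h := by
    by_contra a
    have : x.v ≠ y.v := fun e => a (M.ext e)
    have h' : dd x.v y.v = 0 := h
    linarith [dd_big this]

def G : Subgroup (Equiv.Perm ℝ) where
  carrier := {g | StrictMono g ∧ ∀ (x : ℝ) (n : ℤ), g (x + n) = g x + n}
  mul_mem' {a b} ha hb := ⟨ha.1.comp hb.1, fun x n => by
    simp only [Equiv.Perm.mul_apply]; rw [hb.2, ha.2]⟩
  one_mem' := ⟨strictMono_id, fun _ _ => rfl⟩
  inv_mem' {a} ha := ⟨fun x y h => ha.1.lt_iff_lt.1 (by simpa using h), fun x n =>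
    a.injective (by rw [ha.2]; simp)⟩

instance : MulAction G M where
  smul g x := ⟨g.1 x.v⟩
  one_smul _ := rfl
  mul_smul _ _ _ := rfl

lemma smul_v (g : G) (x : M) : (g • x).v = g.1 x.v := rfl

lemma ceil_eq (g : G) (a b : ℝ) : ⌈g.1 a - g.1 b⌉ = ⌈a - b⌉ := by
  refine eq_of_forall_ge_iff fun n => ?_
  rw [Int.ceil_le, Int.ceil_le, sub_le_iff_le_add', sub_le_iff_le_add', ← g.2.2, g.2.1.le_iff_le]

lemma dd_inv (g : G) (a b : ℝ) : dd (g.1 a) (g.1 b) = dd a b := by
  unfold dd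
  simp only [g.1.injective.eq_iff]
  rcases le_total a b with h | h
  · rw [abs_sub_comm, abs_sub_comm a, abs_of_nonneg (sub_nonneg.2 h),
      abs_of_nonneg (sub_nonneg.2 (g.2.1.monotone h)), ceil_eq]
  · rw [abs_of_nonneg (sub_nonneg.2 h), abs_of_nonneg (sub_nonneg.2 (g.2.1.monotone h)), ceil_eq]

lemma close (g : G) (a b : ℝ) : |g.1 a - g.1 b - (a - b)| ≤ 1 := by
  have h := ceil_eq g a b
  have h1 := Int.le_ceil (g.1 a - g.1 b)
  have h2 := Int.ceil_lt_add_one (g.1 a - g.1 b)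
  rw [h] at h1 h2
  rw [abs_le]
  constructor <;> linarith [Int.le_ceil (a - b), Int.ceil_lt_add_one (a - b)]

noncomputable def s (t x : ℝ) : ℝ := x + Real.sin (2 * Real.pi * (x - t)) / (4 * Real.pi)

lemma s_mono (t : ℝ) : StrictMono (s t) := by
  intro x y h
  have := Real.pi_pos
  have h1 := Real.abs_sin_sub_sin_le (2 * Real.pi * (x - t)) (2 * Real.pi * (y - t))
  rw [show 2 * Real.pi * (x - t) - 2 * Real.pi * (y - t) = -(2 * Real.pi * (y - x)) by ring,
    abs_neg, abs_of_pos (by nlinarith : 0 < 2 * Real.pi * (y - x))] at h1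
  have h2 := (abs_le.1 h1).2
  unfold s
  rw [← sub_pos, show y + Real.sin (2 * Real.pi * (y - t)) / (4 * Real.pi) -
    (x + Real.sin (2 * Real.pi * (x - t)) / (4 * Real.pi)) = (4 * Real.pi * (y - x) -
    (Real.sin (2 * Real.pi * (x - t)) - Real.sin (2 * Real.pi * (y - t)))) / (4 * Real.pi) by
      field_simp; ring]
  exact div_pos (by nlinarith) (by positivity)

lemma s_add (t x : ℝ) (n : ℤ) : s t (x + n) = s t x + n := by
  unfold s
  rw [show 2 * Real.pi * (x + n - t) = 2 * Real.pi * (x - t) + n * (2 * Real.pi) by ring,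
    Real.sin_add_int_mul_two_pi]
  ring

lemma s_surj (t : ℝ) : Function.Surjective (s t) := by
  intro y
  have hc : Continuous (s t) := by unfold s; fun_prop
  have h1 := s_add t 0 ⌊y - s t 0⌋
  have h2 := s_add t 0 ⌈y - s t 0⌉
  have := Int.floor_le (y - s t 0)
  have := Int.le_ceil (y - s t 0)
  exact mem_range_of_exists_le_of_exists_ge hc ⟨_, by rw [h1]; linarith⟩ ⟨_, by rw [h2]; linarith⟩

noncomputable def sg (t : ℝ) : G :=
  ⟨Equiv.ofBijective (s t) ⟨(s_mono t).injective, s_surj t⟩, s_mono t, s_add t⟩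

theorem result : ∃ (M : Type) (_ : MetricSpace M) (o : M) (G : Type) (_ : Group G)
    (_ : MulAction G M), (∀ g : G, Isometry fun x : M => g • x) ∧
    ∃ (δ : ℝ≥0) (f : M → ℝ), 0 < δ ∧ f o = 0 ∧ IsLeast {K | LipschitzWith K f} 1 ∧
      (∀ g : G, LipschitzWith (δ / 10) (act o g f - f)) ∧
      ∀ h : M → ℝ, h o = 0 → (∀ g : G, act o g h = h) →
        ∃ c : ℝ≥0, δ < c ∧ ∀ K : ℝ≥0, LipschitzWith K (f - h) → c ≤ K := by
  have key : ∀ h : M → ℝ, h ⟨0⟩ = 0 → (∀ g : G, act ⟨0⟩ g h = h) → ∀ K : ℝ≥0,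
      LipschitzWith K ((fun x : M => x.v) - h) → 1 ≤ K := by
    intro h h0 hi K hK
    have hp := Real.pi_pos
    have step : ∀ x : ℝ, h ⟨x + 1 / (4 * Real.pi)⟩ = h ⟨x⟩ := by
      intro x
      have a1 := congrFun (hi (sg (x - 1 / 4))⁻¹) ⟨x - 1 / 4⟩
      have a2 := congrFun (hi (sg (x - 1 / 4))⁻¹) ⟨x⟩
      simp only [act, inv_inv] at a1 a2
      have b1 : sg (x - 1 / 4) • (⟨x - 1 / 4⟩ : M) = ⟨x - 1 / 4⟩ :=
        M.ext (show s _ _ = _ by simp [s])
      have b2 : sg (x - 1 / 4) • (⟨x⟩ : M) = ⟨x + 1 / (4 * Real.pi)⟩ :=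
        M.ext (show s _ _ = _ by
          unfold s
          rw [show 2 * Real.pi * (x - (x - 1 / 4)) = Real.pi / 2 by ring, Real.sin_pi_div_two])
      rw [b1] at a1
      rw [b2] at a2
      linarith
    have z : ∀ n : ℕ, h ⟨n * (1 / (4 * Real.pi))⟩ = 0 := by
      intro n
      induction n with
      | zero => simpa using h0
      | succ n ih => rw [Nat.cast_succ, add_mul, one_mul, step, ih]
    by_contra hl
    have hl' : (K : ℝ) < 1 := by exact_mod_cast not_le.1 hl
    obtain ⟨n, hn⟩ := exists_nat_gt (21 / ((1 - K) * (1 / (4 * Real.pi))))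
    have he : 0 < 1 / (4 * Real.pi) := by positivity
    rw [div_lt_iff₀ (mul_pos (by linarith) he)] at hn
    have := hK.dist_le_mul ⟨n * (1 / (4 * Real.pi))⟩ ⟨0⟩
    simp only [Pi.sub_apply, z, h0, sub_zero, Real.dist_eq] at this
    have b := dd_le (n * (1 / (4 * Real.pi))) 0
    have b2 : dist (⟨n * (1 / (4 * Real.pi))⟩ : M) ⟨0⟩ = dd (n * (1 / (4 * Real.pi))) 0 := rfl
    rw [sub_zero, abs_of_nonneg (by positivity)] at b
    rw [b2, abs_of_nonneg (by positivity)] at this
    have := mul_le_mul_of_nonneg_left b K.2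
    have : (0 : ℝ) ≤ K := K.2
    nlinarith
  refine ⟨M, inferInstance, ⟨0⟩, G, inferInstance, inferInstance,
    fun g => Isometry.of_dist_eq fun x y => dd_inv g _ _, 1 / 2, fun x => x.v, by norm_num, rfl,
    ⟨LipschitzWith.of_dist_le_mul fun x y => ?_, fun K hK => key 0 rfl
      (fun _ => funext fun _ => sub_self _) K (by simpa using hK)⟩,
    fun g => LipschitzWith.of_dist_le_mul fun x y => ?_, fun h h0 hi => ⟨1, by norm_num, key h h0 hi⟩⟩
  · rw [NNReal.coe_one, one_mul]
    exact dd_ge x.v y.v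
  · by_cases e : x = y
    · simp [e]
    have h1 := dd_big (fun a => e (M.ext a))
    have h2 := close g⁻¹ x.v y.v
    have h3 : dist x y = dd x.v y.v := rfl
    simp only [Pi.sub_apply, act, smul_v, Real.dist_eq]
    rw [h3, show ∀ a b c d e : ℝ, a - c - d - (b - c - e) = a - b - (d - e) by intros; ring]
    have h4 : ((1 / 2 / 10 : ℝ≥0) : ℝ) = 1 / 20 := by push_cast; norm_num
    rw [h4]
    linarith

end Pool.Agent.Results.MP_35e3b8_an.Counterexample
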